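import Pool.Agent.Lib.MP_c77635_an.SC.Low

/-!
# A bidemocratic Schauder basis of `ℓ₂` that is not squeezed between Lorentz spaces

We construct a bidemocratic Schauder basis of `ℓ₂` such that `ℓ_{2,q}` does not embed in `ℓ₂`
through the basis for any `q > 1` and `ℓ₂` does not embed in `ℓ_{2,r}` through the basis for any
`r < ∞`.

Index `n` is a dyadic interval centred at `n + 1`, its scale is the 2-adic valuation of `n + 1`. The
basis is `(1 + K) e_n`, `K` maps the intervals of odd scale to the intervals of even scale; its matrix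
is `(L + 1) ^ (-1/2)` times the Gram matrix of the normalised indicator functions.
-/

open scoped ENNReal InnerProductSpace

namespace Pool.Agent.Results.MP_c77635_an.SchauderNoLorentzSqueeze

/-- The sequence space `ℓ₂` over the scalar field `𝕜` (real or complex scalars). -/
abbrev Ell2 (𝕜 : Type) [RCLike 𝕜] : Type := lp (fun _ : ℕ => 𝕜) 2

/-- `x` is a basis of `ℓ₂` with biorthogonal functionals `f ↦ ⟪y n, f⟫`: the span of the `x n` is
dense, the functionals are biorthogonal to the `x n`, they separate the points of `ℓ₂`, and both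
sequences are bounded. -/
structure IsBasis {𝕜 : Type} [RCLike 𝕜] (x y : ℕ → Ell2 𝕜) : Prop where
  dense_span : (Submodule.span 𝕜 (Set.range x)).topologicalClosure = ⊤
  biorth : ∀ n k, ⟪y n, x k⟫_𝕜 = if n = k then 1 else 0
  separates : ∀ f : Ell2 𝕜, (∀ n, ⟪y n, f⟫_𝕜 = 0) → f = 0
  bounded : ∃ C : ℝ, ∀ n, ‖x n‖ ≤ C ∧ ‖y n‖ ≤ C

/-- The expansions converge: `∑_{n < N} ⟪y n, f⟫ x n → f` for every `f ∈ ℓ₂`. Together with
`IsBasis` (biorthogonality, boundedness): `x` is a semi-normalised Schauder basis with coordinate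
functionals `y`. -/
def IsSchauder {𝕜 : Type} [RCLike 𝕜] (x y : ℕ → Ell2 𝕜) : Prop :=
  ∀ f : Ell2 𝕜, Filter.Tendsto (fun N : ℕ => ∑ n ∈ Finset.range N, ⟪y n, f⟫_𝕜 • x n)
    Filter.atTop (nhds f)

/-- `φ_m`: the supremum of `‖∑_{n ∈ A} ε_n x_n‖` over `|A| ≤ m` and `|ε_n| = 1`. -/
noncomputable def phi {𝕜 : Type} [RCLike 𝕜] (x : ℕ → Ell2 𝕜) (m : ℕ) : ℝ≥0∞ :=
  ⨆ (A : Finset ℕ) (_ : A.card ≤ m) (ε : ℕ → 𝕜) (_ : ∀ n, ‖ε n‖ = 1), ‖∑ n ∈ A, ε n • x n‖ₑ

/-- Bidemocracy: `sup_m φ_m φ*_m / m < ∞`. -/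
def IsBidemocratic {𝕜 : Type} [RCLike 𝕜] (x y : ℕ → Ell2 𝕜) : Prop :=
  ∃ C : ℝ≥0∞, C ≠ ∞ ∧ ∀ m : ℕ, 1 ≤ m → phi x m * phi y m ≤ C * m

/-- The non-increasing rearrangement of `(|a n|)`, indexed from `0`: `rearr a n` is the
`(n+1)`-st term. -/
noncomputable def rearr {𝕜 : Type} [RCLike 𝕜] (a : ℕ → 𝕜) (n : ℕ) : ℝ≥0∞ :=
  sInf {t : ℝ≥0∞ | {i : ℕ | t < ‖a i‖ₑ}.encard ≤ n}

/-- The Lorentz quasi-norm of `ℓ_{2,s}`:
`(∑_{n ≥ 1} (a*_n)^s n^{s/2-1})^{1/s}`, with value `∞` if the sum diverges. -/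
noncomputable def lorentz {𝕜 : Type} [RCLike 𝕜] (s : ℝ) (a : ℕ → 𝕜) : ℝ≥0∞ :=
  (∑' n : ℕ, rearr a n ^ s * ((n : ℝ≥0∞) + 1) ^ (s / 2 - 1)) ^ (1 / s)

/-- `ℓ_{2,q} ↪ ℓ₂` through `x`: `‖∑ a_n x_n‖ ≤ C ‖a‖_{2,q}` for all finitely supported `a`. -/
def EmbedsInto {𝕜 : Type} [RCLike 𝕜] (x : ℕ → Ell2 𝕜) (q : ℝ) : Prop :=
  ∃ C : ℝ≥0∞, C ≠ ∞ ∧ ∀ a : ℕ →₀ 𝕜, ‖a.sum (fun n c => c • x n)‖ₑ ≤ C * lorentz q a

/-- `ℓ₂ ↪ ℓ_{2,r}` through the basis with biorthogonal functionals `y`: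
`‖(⟪y n, f⟫)_n‖_{2,r} ≤ C ‖f‖` for all `f ∈ ℓ₂`. -/
def EmbedsOut {𝕜 : Type} [RCLike 𝕜] (y : ℕ → Ell2 𝕜) (r : ℝ) : Prop :=
  ∃ C : ℝ≥0∞, C ≠ ∞ ∧ ∀ f : Ell2 𝕜, lorentz r (fun n => ⟪y n, f⟫_𝕜) ≤ C * ‖f‖ₑ

open Pool.Agent.Lib.MPc77635.SC

section vectors

variable {𝕜 : Type} [RCLike 𝕜]

/-- The unit vectors of `ℓ₂`. -/
noncomputable def e (n : ℕ) : Ell2 𝕜 := lp.single 2 n (1 : 𝕜)

lemma inner_e_left (n : ℕ) (f : Ell2 𝕜) : ⟪(e n : Ell2 𝕜), f⟫_𝕜 = f n := by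
  unfold e
  rw [lp.inner_single_left]
  simp

lemma e_apply (n k : ℕ) : (e n : Ell2 𝕜) k = if k = n then 1 else 0 := by
  unfold e
  rw [lp.single_apply]
  by_cases h : k = n
  · subst h; simp
  · simp [h]

/-- A kernel dominated by `kk`, with square zero. -/
structure Ker (k : ℕ → ℕ → ℝ) : Prop where
  le : ∀ m n, |k m n| ≤ kk m n
  sq : ∀ m n j, k m n * k n j = 0

lemma Ker.eq_zero {k : ℕ → ℕ → ℝ} (hk : Ker k) {m n : ℕ} (h : blk m ≠ blk n) : k m n = 0 := by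
  have := hk.le m n
  rw [kk_eq_zero h] at this
  exact abs_eq_zero.1 (le_antisymm this (abs_nonneg _))

/-- The vectors `(1 + K) e_n`. -/
noncomputable def Z (k : ℕ → ℕ → ℝ) (n : ℕ) : Ell2 𝕜 :=
  e n + ∑ m ∈ B (blk n), ((k m n : ℝ) : 𝕜) • e m

lemma Z_apply {k : ℕ → ℕ → ℝ} (hk : Ker k) (n m : ℕ) :
    (Z k n : Ell2 𝕜) m = (if m = n then 1 else 0) + ((k m n : ℝ) : 𝕜) := by
  unfold Z
  rw [lp.coeFn_add, Pi.add_apply, e_apply, lp.coeFn_sum, Finset.sum_apply]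
  congr 1
  have : ∀ j ∈ B (blk n), (((k j n : ℝ) : 𝕜) • e j : Ell2 𝕜) m =
      if m = j then ((k j n : ℝ) : 𝕜) else 0 := by
    intro j _
    rw [lp.coeFn_smul, Pi.smul_apply, e_apply, smul_eq_mul, mul_ite, mul_one, mul_zero]
  rw [Finset.sum_congr rfl this, Finset.sum_ite_eq]
  split_ifs with h
  · rfl
  · rw [mem_B] at h
    rw [hk.eq_zero h, RCLike.ofReal_zero]

lemma inner_Z (k : ℕ → ℕ → ℝ) (n : ℕ) (f : Ell2 𝕜) :
    ⟪(Z k n : Ell2 𝕜), f⟫_𝕜 = f n + ∑ m ∈ B (blk n), ((k m n : ℝ) : 𝕜) * f m := by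
  unfold Z
  rw [inner_add_left, inner_e_left, sum_inner]
  congr 1
  refine Finset.sum_congr rfl fun m _ => ?_
  rw [inner_smul_left, inner_e_left, RCLike.conj_ofReal]

lemma biorth_Z {k k' : ℕ → ℕ → ℝ} (hk : Ker k) (h : ∀ m n, k' m n = - k n m)
    (n j : ℕ) : ⟪(Z k' n : Ell2 𝕜), Z k j⟫_𝕜 = if n = j then 1 else 0 := by
  rw [inner_Z, Z_apply hk]
  have h1 : ∀ m ∈ B (blk n), ((k' m n : ℝ) : 𝕜) * (Z k j : Ell2 𝕜) m =
      if m = j then ((k' j n : ℝ) : 𝕜) else 0 := by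
    intro m _
    rw [Z_apply hk, mul_add, ← RCLike.ofReal_mul]
    have : k' m n * k m j = 0 := by
      rw [h, neg_mul, hk.sq, neg_zero]
    rw [this, RCLike.ofReal_zero, add_zero, mul_ite, mul_one, mul_zero]
    split_ifs with h2
    · rw [h2]
    · rfl
  rw [Finset.sum_congr rfl h1]
  rw [Finset.sum_ite_eq' (B (blk n)) j]
  by_cases h3 : j ∈ B (blk n)
  · rw [if_pos h3, h]
    push_cast
    ring
  · rw [if_neg h3]
    rw [mem_B] at h3
    rw [hk.eq_zero (Ne.symm h3)]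
    simp

lemma e_mem_span {k : ℕ → ℕ → ℝ} (hk : Ker k) (n : ℕ) :
    (e n : Ell2 𝕜) ∈ Submodule.span 𝕜 (Set.range (Z k : ℕ → Ell2 𝕜)) := by
  have key : (e n : Ell2 𝕜) = Z k n - ∑ m ∈ B (blk n), ((k m n : ℝ) : 𝕜) • Z k m := by
    have h1 : ∀ m ∈ B (blk n), ((k m n : ℝ) : 𝕜) • (Z k m : Ell2 𝕜)
        = ((k m n : ℝ) : 𝕜) • e m := by
      intro m _
      unfold Z
      rw [smul_add, Finset.smul_sum]
      have : ∀ j ∈ B (blk m), ((k m n : ℝ) : 𝕜) • ((k j m : ℝ) : 𝕜) • (e j : Ell2 𝕜) = 0 := by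
        intro j _
        rw [smul_smul, ← RCLike.ofReal_mul, mul_comm, hk.sq, RCLike.ofReal_zero, zero_smul]
      rw [Finset.sum_congr rfl this, Finset.sum_const_zero, add_zero]
    rw [Finset.sum_congr rfl h1]
    unfold Z
    rw [add_sub_cancel_right]
  rw [key]
  refine Submodule.sub_mem _ (Submodule.subset_span ⟨n, rfl⟩) (Submodule.sum_mem _ fun m _ =>
    Submodule.smul_mem _ _ (Submodule.subset_span ⟨m, rfl⟩))

lemma eq_zero_of_inner_Z {k : ℕ → ℕ → ℝ} (hk : Ker k)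
    (f : Ell2 𝕜) (hf : ∀ n, ⟪(Z k n : Ell2 𝕜), f⟫_𝕜 = 0) : f = 0 := by
  have h1 : ∀ v ∈ Submodule.span 𝕜 (Set.range (Z k : ℕ → Ell2 𝕜)), ⟪v, f⟫_𝕜 = 0 := by
    intro v hv
    induction hv using Submodule.span_induction with
    | mem x hx => obtain ⟨n, rfl⟩ := hx; exact hf n
    | zero => simp
    | add x y _ _ hx hy => rw [inner_add_left, hx, hy, add_zero]
    | smul c x _ hx => rw [inner_smul_left, hx, mul_zero]
  ext n
  have := h1 _ (e_mem_span hk n)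
  rw [inner_e_left] at this
  simpa using this

lemma dense_span_Z {k : ℕ → ℕ → ℝ} (hk : Ker k) :
    (Submodule.span 𝕜 (Set.range (Z k : ℕ → Ell2 𝕜))).topologicalClosure = ⊤ := by
  rw [Submodule.topologicalClosure_eq_top_iff, Submodule.eq_bot_iff]
  intro f hf
  rw [Submodule.mem_orthogonal] at hf
  exact eq_zero_of_inner_Z hk f fun n => hf _ (Submodule.subset_span ⟨n, rfl⟩)

lemma norm_le_of_coord (F : Ell2 𝕜) (C : ℝ) (hC : 0 ≤ C)
    (h : ∀ M : Finset ℕ, ∑ m ∈ M, ‖F m‖ ^ 2 ≤ C ^ 2) : ‖F‖ ≤ C := by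
  apply lp.norm_le_of_forall_sum_le (by norm_num) hC
  intro M
  simpa using h M

lemma coord_le_norm (F : Ell2 𝕜) (M : Finset ℕ) : ∑ m ∈ M, ‖F m‖ ^ 2 ≤ ‖F‖ ^ 2 := by
  have := lp.sum_rpow_le_norm_rpow (p := 2) (by norm_num) F M
  simpa using this

lemma norm_sum_Z_le {k : ℕ → ℕ → ℝ} (hk : Ker k) (A : Finset ℕ) (ε : ℕ → 𝕜)
    (hε : ∀ n, ‖ε n‖ = 1) : ‖∑ n ∈ A, ε n • (Z k n : Ell2 𝕜)‖ ≤ 10 * √(A.card : ℝ) := by
  apply norm_le_of_coord _ _ (by positivity)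
  intro M
  have h1 : ∀ m ∈ M, ‖(∑ n ∈ A, ε n • (Z k n : Ell2 𝕜) : Ell2 𝕜) m‖ ^ 2 ≤
      2 * (if m ∈ A then 1 else 0) + 2 * (∑ n ∈ A, kk m n) ^ 2 := by
    intro m _
    rw [lp.coeFn_sum, Finset.sum_apply]
    have h2 : ∀ n ∈ A, (ε n • (Z k n : Ell2 𝕜) : Ell2 𝕜) m =
        (if m = n then ε n else 0) + ε n * ((k m n : ℝ) : 𝕜) := by
      intro n _
      rw [lp.coeFn_smul, Pi.smul_apply, Z_apply hk, smul_eq_mul, mul_add, mul_ite, mul_one,
        mul_zero]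
    rw [Finset.sum_congr rfl h2, Finset.sum_add_distrib, Finset.sum_ite_eq]
    have h3 : ‖∑ n ∈ A, ε n * ((k m n : ℝ) : 𝕜)‖ ≤ ∑ n ∈ A, kk m n := by
      refine (norm_sum_le _ _).trans (Finset.sum_le_sum fun n _ => ?_)
      rw [norm_mul, hε, one_mul, RCLike.norm_ofReal]
      exact hk.le m n
    have h4 : ‖(if m ∈ A then ε m else 0 : 𝕜)‖ ^ 2 = if m ∈ A then 1 else 0 := by
      split_ifs
      · rw [hε]; norm_num
      · simp
    have h5 := norm_add_le (if m ∈ A then ε m else 0 : 𝕜) (∑ n ∈ A, ε n * ((k m n : ℝ) : 𝕜))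
    rw [← h4]
    set x := ‖(if m ∈ A then ε m else 0 : 𝕜)‖
    set y := ‖∑ n ∈ A, ε n * ((k m n : ℝ) : 𝕜)‖
    have hy : 0 ≤ y := norm_nonneg _
    have hx : 0 ≤ x := norm_nonneg _
    set z := ∑ n ∈ A, kk m n
    have h6 := norm_nonneg ((if m ∈ A then ε m else 0 : 𝕜) + ∑ n ∈ A, ε n * ((k m n : ℝ) : 𝕜))
    set w := ‖(if m ∈ A then ε m else 0 : 𝕜) + ∑ n ∈ A, ε n * ((k m n : ℝ) : 𝕜)‖
    nlinarith [sq_nonneg (x - y)]
  refine (Finset.sum_le_sum h1).trans ?_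
  rw [Finset.sum_add_distrib, ← Finset.mul_sum, ← Finset.mul_sum]
  have h7 := kk_dem A M
  have h8 : ∑ m ∈ M, (if m ∈ A then (1 : ℝ) else 0) ≤ A.card := by
    rw [← Finset.sum_filter, Finset.sum_const, nsmul_eq_mul, mul_one]
    norm_cast
    apply Finset.card_le_card
    intro m hm
    exact (Finset.mem_filter.1 hm).2
  rw [mul_pow, Real.sq_sqrt (by positivity)]
  have : (0 : ℝ) ≤ A.card := by positivity
  linarith

lemma phi_Z_le {k : ℕ → ℕ → ℝ} (hk : Ker k) (m : ℕ) :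
    phi (Z k : ℕ → Ell2 𝕜) m ≤ ENNReal.ofReal (10 * √(m : ℝ)) := by
  unfold phi
  refine iSup_le fun A => iSup_le fun hA => iSup_le fun ε => iSup_le fun hε => ?_
  rw [← ofReal_norm]
  apply ENNReal.ofReal_le_ofReal
  refine (norm_sum_Z_le hk A ε hε).trans ?_
  have : (A.card : ℝ) ≤ m := by exact_mod_cast hA
  have := Real.sqrt_le_sqrt this
  linarith

lemma norm_Z_le {k : ℕ → ℕ → ℝ} (hk : Ker k) (n : ℕ) : ‖(Z k n : Ell2 𝕜)‖ ≤ 10 := by
  have := norm_sum_Z_le (𝕜 := 𝕜) hk {n} (fun _ => 1) (fun _ => by simp)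
  simpa using this

/-- The coordinates of the sums of the expansion. -/
lemma psum_apply {k k' : ℕ → ℕ → ℝ} (hk : Ker k) (h : ∀ m n, k' m n = - k n m)
    (t : ℕ) (f : Ell2 𝕜) (m : ℕ) :
    (∑ n ∈ Finset.range t, ⟪(Z k' n : Ell2 𝕜), f⟫_𝕜 • (Z k n : Ell2 𝕜) : Ell2 𝕜) m =
      (if m < t then f m else 0) +
      ∑ n ∈ B (blk m), (((if n < t then (1 : ℝ) else 0) - (if m < t then 1 else 0) : ℝ) : 𝕜) *
        (((k m n : ℝ) : 𝕜) * f n) := by
  rw [lp.coeFn_sum, Finset.sum_apply]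
  -- the product terms vanish
  have h0 : ∀ n, ⟪(Z k' n : Ell2 𝕜), f⟫_𝕜 * ((k m n : ℝ) : 𝕜) = f n * ((k m n : ℝ) : 𝕜) := by
    intro n
    rw [inner_Z, add_mul, Finset.sum_mul]
    have : ∀ j ∈ B (blk n), ((k' j n : ℝ) : 𝕜) * f j * ((k m n : ℝ) : 𝕜) = 0 := by
      intro j _
      have h3 : k m n * k' j n = 0 := by rw [h, mul_neg, hk.sq, neg_zero]
      calc ((k' j n : ℝ) : 𝕜) * f j * ((k m n : ℝ) : 𝕜)
          = ((k m n * k' j n : ℝ) : 𝕜) * f j := by push_cast; ring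
        _ = 0 := by rw [h3]; simp
    rw [Finset.sum_congr rfl this, Finset.sum_const_zero, add_zero]
  have h1 : ∀ n ∈ Finset.range t, (⟪(Z k' n : Ell2 𝕜), f⟫_𝕜 • (Z k n : Ell2 𝕜) : Ell2 𝕜) m =
      (if m = n then ⟪(Z k' n : Ell2 𝕜), f⟫_𝕜 else 0) + f n * ((k m n : ℝ) : 𝕜) := by
    intro n _
    rw [lp.coeFn_smul, Pi.smul_apply, Z_apply hk, smul_eq_mul, mul_add, h0, mul_ite, mul_one,
      mul_zero]
  rw [Finset.sum_congr rfl h1, Finset.sum_add_distrib, Finset.sum_ite_eq]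
  have h2 : ∑ n ∈ Finset.range t, f n * ((k m n : ℝ) : 𝕜) =
      ∑ n ∈ B (blk m), (if n < t then ((k m n : ℝ) : 𝕜) * f n else 0) := by
    rw [← Finset.sum_filter]
    symm
    rw [← Finset.sum_subset (s₁ := (B (blk m)).filter fun n => n < t)
      (s₂ := Finset.range t)]
    · exact Finset.sum_congr rfl fun n _ => mul_comm _ _
    · intro n hn
      rw [Finset.mem_range]
      exact (Finset.mem_filter.1 hn).2
    · intro n hn hn2
      rw [Finset.mem_range] at hn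
      rw [Finset.mem_filter, mem_B] at hn2
      have : blk m ≠ blk n := fun h3 => hn2 ⟨h3.symm, hn⟩
      rw [hk.eq_zero this, RCLike.ofReal_zero, mul_zero]
  rw [h2]
  by_cases hm : m < t
  · rw [if_pos (Finset.mem_range.2 hm), if_pos hm, inner_Z, add_assoc]
    congr 1
    rw [← Finset.sum_add_distrib]
    refine Finset.sum_congr rfl fun n _ => ?_
    rw [h, if_pos hm]
    split_ifs <;> push_cast <;> ring
  · rw [if_neg (by rw [Finset.mem_range]; exact hm), if_neg hm, zero_add, zero_add]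
    refine Finset.sum_congr rfl fun n _ => ?_
    rw [if_neg hm]
    split_ifs <;> push_cast <;> ring

lemma norm_psum_le {k k' : ℕ → ℕ → ℝ} (hk : Ker k)
    (h : ∀ m n, k' m n = - k n m) (t : ℕ) (f : Ell2 𝕜) :
    ‖∑ n ∈ Finset.range t, ⟪(Z k' n : Ell2 𝕜), f⟫_𝕜 • (Z k n : Ell2 𝕜)‖ ≤ 16 * ‖f‖ := by
  apply norm_le_of_coord _ _ (by positivity)
  intro M
  set A : Finset ℕ := M.biUnion fun m => B (blk m) with hA
  have h1 : ∀ m ∈ M,
      ‖(∑ n ∈ Finset.range t, ⟪(Z k' n : Ell2 𝕜), f⟫_𝕜 • (Z k n : Ell2 𝕜) : Ell2 𝕜) m‖ ^ 2 ≤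
      2 * ‖f m‖ ^ 2 + 2 * (∑ n ∈ A,
        (if (m < t ∧ t ≤ n) ∨ (n < t ∧ t ≤ m) then kk m n * ‖f n‖ else 0)) ^ 2 := by
    intro m hm
    rw [psum_apply hk h]
    set a : 𝕜 := if m < t then f m else 0 with ha
    set b : 𝕜 := ∑ n ∈ B (blk m),
      (((if n < t then (1 : ℝ) else 0) - (if m < t then 1 else 0) : ℝ) : 𝕜) *
        (((k m n : ℝ) : 𝕜) * f n) with hb
    have h2 : ‖a‖ ≤ ‖f m‖ := by
      rw [ha]
      split_ifs
      · exact le_rfl
      · simp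
    have h3 : ‖b‖ ≤ ∑ n ∈ A,
        (if (m < t ∧ t ≤ n) ∨ (n < t ∧ t ≤ m) then kk m n * ‖f n‖ else 0) := by
      have h4 : ‖b‖ ≤ ∑ n ∈ B (blk m),
          (if (m < t ∧ t ≤ n) ∨ (n < t ∧ t ≤ m) then kk m n * ‖f n‖ else 0) := by
        refine (norm_sum_le _ _).trans (Finset.sum_le_sum fun n _ => ?_)
        rw [norm_mul, norm_mul, RCLike.norm_ofReal, RCLike.norm_ofReal]
        have h5 : |k m n| * ‖f n‖ ≤ kk m n * ‖f n‖ :=
          mul_le_mul_of_nonneg_right (hk.le m n) (norm_nonneg _)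
        by_cases hn : n < t <;> by_cases hm : m < t
        · have : ¬ ((m < t ∧ t ≤ n) ∨ (n < t ∧ t ≤ m)) := by omega
          rw [if_neg this, if_pos hn, if_pos hm]
          simp
        · have : (m < t ∧ t ≤ n) ∨ (n < t ∧ t ≤ m) := by omega
          rw [if_pos this, if_pos hn, if_neg hm]
          simpa using h5
        · have : (m < t ∧ t ≤ n) ∨ (n < t ∧ t ≤ m) := by omega
          rw [if_pos this, if_neg hn, if_pos hm]
          simpa using h5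
        · have : ¬ ((m < t ∧ t ≤ n) ∨ (n < t ∧ t ≤ m)) := by omega
          rw [if_neg this, if_neg hn, if_neg hm]
          simp
      refine h4.trans ?_
      apply Finset.sum_le_sum_of_subset_of_nonneg
      · exact Finset.subset_biUnion_of_mem (fun m => B (blk m)) hm
      · intro n _ _
        have := kk_nonneg m n
        split_ifs <;> positivity
    have h5 := norm_add_le a b
    have ha0 := norm_nonneg a
    have hb0 := norm_nonneg b
    have hc0 := norm_nonneg (a + b)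
    set z := ∑ n ∈ A, (if (m < t ∧ t ≤ n) ∨ (n < t ∧ t ≤ m) then kk m n * ‖f n‖ else 0)
    have h6 : ‖a + b‖ ≤ ‖f m‖ + z := by linarith
    have h7 : ‖a + b‖ ^ 2 ≤ (‖f m‖ + z) ^ 2 := pow_le_pow_left₀ hc0 h6 2
    nlinarith [sq_nonneg (‖f m‖ - z)]
  refine (Finset.sum_le_sum h1).trans ?_
  rw [Finset.sum_add_distrib, ← Finset.mul_sum, ← Finset.mul_sum]
  have h8 := kk_sep A M t (fun n => ‖f n‖) (fun n => norm_nonneg _)
  have h9 := coord_le_norm f M
  have h10 := coord_le_norm f A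
  have h11 := sq_nonneg ‖f‖
  rw [mul_pow]
  linarith

lemma schauder_Z {k k' : ℕ → ℕ → ℝ} (hk : Ker k)
    (h : ∀ m n, k' m n = - k n m) : IsSchauder (Z k : ℕ → Ell2 𝕜) (Z k') := by
  intro f
  -- the sum operators
  set S : ℕ → Ell2 𝕜 → Ell2 𝕜 := fun N g =>
    ∑ n ∈ Finset.range N, ⟪(Z k' n : Ell2 𝕜), g⟫_𝕜 • (Z k n : Ell2 𝕜) with hS
  have hadd : ∀ N g g', S N (g + g') = S N g + S N g' := by
    intro N g g'
    rw [hS]
    simp only [inner_add_right, add_smul, Finset.sum_add_distrib]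
  have hsmul : ∀ N (c : 𝕜) g, S N (c • g) = c • S N g := by
    intro N c g
    rw [hS]
    simp only [inner_smul_right, mul_smul, Finset.smul_sum]
  have hsub : ∀ N g g', S N (g - g') = S N g - S N g' := by
    intro N g g'
    rw [hS]
    simp only [inner_sub_right, sub_smul, Finset.sum_sub_distrib]
  have hspan : ∀ g ∈ Submodule.span 𝕜 (Set.range (Z k : ℕ → Ell2 𝕜)),
      ∀ᶠ N in Filter.atTop, S N g = g := by
    intro g hg
    induction hg using Submodule.span_induction with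
    | mem x hx =>
      obtain ⟨j, rfl⟩ := hx
      filter_upwards [Filter.eventually_gt_atTop j] with N hN
      rw [hS]
      simp only [biorth_Z hk h, ite_smul, one_smul, zero_smul]
      rw [Finset.sum_ite_eq' (Finset.range N) j, if_pos (Finset.mem_range.2 hN)]
    | zero => exact Filter.Eventually.of_forall fun N => by rw [hS]; simp
    | add x y _ _ hx hy =>
      filter_upwards [hx, hy] with N h1 h2
      rw [hadd, h1, h2]
    | smul c x _ hx =>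
      filter_upwards [hx] with N h1
      rw [hsmul, h1]
  rw [Metric.tendsto_atTop]
  intro ε hε
  have hf : f ∈ (Submodule.span 𝕜 (Set.range (Z k : ℕ → Ell2 𝕜))).topologicalClosure := by
    rw [dense_span_Z hk]; trivial
  rw [← SetLike.mem_coe, Submodule.topologicalClosure_coe, Metric.mem_closure_iff] at hf
  obtain ⟨g, hg, hfg⟩ := hf (ε / 18) (by positivity)
  obtain ⟨N₀, hN₀⟩ := (hspan g hg).exists_forall_of_atTop
  refine ⟨N₀, fun N hN => ?_⟩
  change dist (S N f) f < ε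
  have h1 : S N f - f = S N (f - g) - (f - g) := by
    rw [hsub, hN₀ N hN]
    abel
  rw [dist_eq_norm, h1]
  have h2 := norm_psum_le hk h N (f - g)
  rw [dist_eq_norm] at hfg
  have h3 := norm_sub_le (S N (f - g)) (f - g)
  change ‖S N (f - g)‖ ≤ _ at h2
  linarith [norm_nonneg (f - g)]

end vectors

/-! ### Lorentz norms of the test sequences -/

section lorentz

variable {𝕜 : Type} [RCLike 𝕜]

lemma rearr_le_of_card (b : ℕ → 𝕜) (n : ℕ) (t : ℝ≥0∞) (S : Finset ℕ) (hS : S.card ≤ n)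
    (h : ∀ i, i ∉ S → ‖b i‖ₑ ≤ t) : rearr b n ≤ t := by
  unfold rearr
  apply sInf_le
  simp only [Set.mem_ofPred_eq]
  have hsub : {i : ℕ | t < ‖b i‖ₑ} ⊆ (S : Set ℕ) := by
    intro i hi
    simp only [Set.mem_ofPred_eq] at hi
    by_contra hcon
    exact absurd (h i hcon) (not_le.2 hi)
  refine (Set.encard_le_encard hsub).trans ?_
  rw [Set.encard_coe_eq_coe_finsetCard]
  exact_mod_cast hS

lemma le_rearr_of_card (b : ℕ → 𝕜) (n : ℕ) (t : ℝ≥0∞) (S : Finset ℕ) (hS : n < S.card)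
    (h : ∀ i ∈ S, t ≤ ‖b i‖ₑ) : t ≤ rearr b n := by
  unfold rearr
  apply le_sInf
  intro u hu
  simp only [Set.mem_ofPred_eq] at hu
  by_contra hcon
  rw [not_le] at hcon
  have hsub : (S : Set ℕ) ⊆ {i : ℕ | u < ‖b i‖ₑ} := by
    intro i hi
    simp only [Set.mem_ofPred_eq]
    exact lt_of_lt_of_le hcon (h i hi)
  have h1 := (Set.encard_le_encard hsub).trans hu
  rw [Set.encard_coe_eq_coe_finsetCard] at h1
  have h3 : S.card ≤ n := by exact_mod_cast h1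
  omega

lemma sq_inv_sqrt (n : ℕ) : (1 / √((n : ℝ) + 1)) ^ 2 = 1 / ((n : ℝ) + 1) := by
  rw [div_pow, Real.sq_sqrt (by positivity), one_pow]

lemma rearr_le (L : ℕ) (β : ℝ) (hβ2 : β ^ 2 * 2 ^ (L + 1) = 1) (b : ℕ → 𝕜)
    (hb : ∀ i ∈ B L, ‖b i‖ ≤ β * ta i) (hb' : ∀ i, i ∉ B L → b i = 0)
    (n : ℕ) : rearr b n ≤ if n < 2 ^ L then ENNReal.ofReal (1 / √((n : ℝ) + 1)) else 0 := by
  split_ifs with hn
  · apply rearr_le_of_card b n _ ((B L).filter fun i => 2 ^ (L + 1) < 2 ^ val i * (n + 1))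
    · rcases ((B L).filter fun i => 2 ^ (L + 1) <
        2 ^ val i * (n + 1)).eq_empty_or_nonempty with h | h
      · rw [h]; simp
      · obtain ⟨i₀, hi₀, hmin⟩ := Finset.exists_min_image _ val h
        rw [Finset.mem_filter, mem_B] at hi₀
        obtain ⟨hi1, hi2⟩ := hi₀
        set v := val i₀ with hv
        have hvL : v ≤ L := by
          have := val_le i₀
          rw [hi1] at this
          exact this
        have h1 : ((B L).filter fun i => 2 ^ (L + 1) <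
            2 ^ val i * (n + 1)).card ≤ 2 ^ (L - v) := by
          refine le_trans (Finset.card_le_card ?_) (card_val_ge L v hvL)
          intro i hi
          have h2 := hmin i hi
          rw [Finset.mem_filter] at hi ⊢
          exact ⟨hi.1, h2⟩
        have h3 : 2 ^ (L + 1) = 2 ^ v * (2 * 2 ^ (L - v)) := by
          rw [← pow_succ', ← pow_add]
          congr 1
          omega
        rw [h3] at hi2
        have h4 := Nat.lt_of_mul_lt_mul_left hi2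
        have h5 : 1 ≤ 2 ^ (L - v) := Nat.one_le_two_pow
        omega
    · intro i hi
      rw [← ofReal_norm]
      apply ENNReal.ofReal_le_ofReal
      by_cases hiB : i ∈ B L
      · have h1 : ¬ 2 ^ (L + 1) < 2 ^ val i * (n + 1) := by
          intro hcon
          exact hi (Finset.mem_filter.2 ⟨hiB, hcon⟩)
        rw [not_lt] at h1
        have h2 : (2 : ℝ) ^ val i * ((n : ℝ) + 1) ≤ 2 ^ (L + 1) := by
          exact_mod_cast h1
        refine (hb i hiB).trans ?_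
        apply le_of_sq_le_sq _ (by positivity)
        rw [sq_inv_sqrt, mul_pow, ta_sq, le_div_iff₀ (by positivity)]
        calc β ^ 2 * 2 ^ val i * ((n : ℝ) + 1)
            = β ^ 2 * (2 ^ val i * ((n : ℝ) + 1)) := by ring
          _ ≤ β ^ 2 * 2 ^ (L + 1) := by gcongr
          _ = 1 := hβ2
      · rw [hb' i hiB, norm_zero]
        positivity
  · apply rearr_le_of_card b n _ (B L)
    · rw [card_B]; exact not_lt.1 hn
    · intro i hi
      rw [hb' i hi]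
      simp

lemma le_rearr (L : ℕ) (hL : 2 ≤ L) (β : ℝ) (hβ : 0 ≤ β) (hβ2 : β ^ 2 * 2 ^ L = 8) (b : ℕ → 𝕜)
    (hb : ∀ i ∈ B L, Even (val i) → β * ta i ≤ ‖b i‖)
    (n : ℕ) (hn : n < 2 ^ (L - 2)) : ENNReal.ofReal (1 / √((n : ℝ) + 1)) ≤ rearr b n := by
  set j := Nat.log 2 (n + 1) with hj
  have hj1 : 2 ^ j ≤ n + 1 := Nat.pow_log_le_self 2 (by omega)
  have hj2 : n + 1 < 2 ^ (j + 1) := Nat.lt_pow_succ_log_self (by norm_num) _
  have hj3 : j ≤ L - 2 := by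
    by_contra hcon
    have : 2 ^ (L - 2 + 1) ≤ 2 ^ j := Nat.pow_le_pow_right (by norm_num) (by omega)
    have h2 : 2 ^ (L - 2 + 1) = 2 * 2 ^ (L - 2) := pow_succ' _ _
    omega
  set v := 2 * ((L - j - 2) / 2) with hv
  have hv1 : v ≤ L - j - 2 := by omega
  have hv2 : L ≤ v + j + 3 := by omega
  apply le_rearr_of_card b n _ ((B L).filter fun i => val i = v)
  · refine lt_of_lt_of_le ?_ (le_card_val_eq L v (by omega))
    have : 2 ^ (j + 1) ≤ 2 ^ (L - v - 1) := Nat.pow_le_pow_right (by norm_num) (by omega)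
    omega
  · intro i hi
    rw [Finset.mem_filter] at hi
    rw [← ofReal_norm]
    apply ENNReal.ofReal_le_ofReal
    refine le_trans ?_ (hb i hi.1 (by rw [hi.2]; exact ⟨(L - j - 2) / 2, by omega⟩))
    have := ta_pos i
    apply le_of_sq_le_sq _ (by positivity)
    rw [sq_inv_sqrt, mul_pow, ta_sq, hi.2, div_le_iff₀ (by positivity)]
    have h1 : (2 : ℝ) ^ L ≤ 8 * (2 ^ v * ((n : ℝ) + 1)) := by
      have h2 : 2 ^ L ≤ 2 ^ (v + j + 3) := Nat.pow_le_pow_right (by norm_num) hv2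
      have h3 : 2 ^ (v + j + 3) = 8 * (2 ^ v * 2 ^ j) := by ring
      have h4 : 2 ^ L ≤ 8 * (2 ^ v * (n + 1)) := by
        rw [h3] at h2
        refine h2.trans ?_
        gcongr
      exact_mod_cast h4
    have h5 : (0 : ℝ) < 2 ^ L := by positivity
    have h6 : β ^ 2 * 2 ^ L ≤ β ^ 2 * (8 * (2 ^ v * ((n : ℝ) + 1))) := by gcongr
    rw [hβ2] at h6
    linarith

lemma term_eq (q : ℝ) (n : ℕ) :
    ENNReal.ofReal (1 / √((n : ℝ) + 1)) ^ q * ((n : ℝ≥0∞) + 1) ^ (q / 2 - 1)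
      = ENNReal.ofReal (1 / ((n : ℝ) + 1)) := by
  have hn : (0 : ℝ) < (n : ℝ) + 1 := by positivity
  have h1 : ((n : ℝ≥0∞) + 1) = ENNReal.ofReal ((n : ℝ) + 1) := by
    rw [ENNReal.ofReal_add (by positivity) zero_le_one]
    simp
  have h2 : (1 / √((n : ℝ) + 1)) = ((n : ℝ) + 1) ^ (-(1 / 2) : ℝ) := by
    rw [Real.rpow_neg hn.le, ← Real.sqrt_eq_rpow, one_div]
  rw [h1, h2, ENNReal.ofReal_rpow_of_pos (by positivity), ENNReal.ofReal_rpow_of_pos hn,
    ← ENNReal.ofReal_mul (by positivity), ← Real.rpow_mul hn.le, ← Real.rpow_add hn]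
  congr 1
  rw [show -(1 / 2) * q + (q / 2 - 1) = (-1 : ℝ) by ring, Real.rpow_neg_one, one_div]

lemma ofReal_s (N : ℕ) : ENNReal.ofReal (s N)
    = ∑ n ∈ Finset.range (2 ^ N), ENNReal.ofReal (1 / ((n : ℝ) + 1)) := by
  unfold s
  rw [ENNReal.ofReal_sum_of_nonneg]
  intro i _
  positivity

lemma lorentz_le (L : ℕ) (q : ℝ) (hq : 0 < q) (β : ℝ)
    (hβ2 : β ^ 2 * 2 ^ (L + 1) = 1) (b : ℕ → 𝕜)
    (hb : ∀ i ∈ B L, ‖b i‖ ≤ β * ta i) (hb' : ∀ i, i ∉ B L → b i = 0) :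
    lorentz q b ≤ ENNReal.ofReal (s L) ^ (1 / q) := by
  unfold lorentz
  apply ENNReal.rpow_le_rpow _ (by positivity)
  have hz : ∀ n ∉ Finset.range (2 ^ L), rearr b n ^ q * ((n : ℝ≥0∞) + 1) ^ (q / 2 - 1) = 0 := by
    intro n hn
    have h1 := rearr_le L β hβ2 b hb hb' n
    rw [if_neg (by simpa using hn)] at h1
    rw [nonpos_iff_eq_zero.1 h1, ENNReal.zero_rpow_of_pos hq, zero_mul]
  rw [tsum_eq_sum hz, ofReal_s]
  refine Finset.sum_le_sum fun n hn => ?_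
  rw [← term_eq q n]
  have h1 := rearr_le L β hβ2 b hb hb' n
  rw [if_pos (Finset.mem_range.1 hn)] at h1
  gcongr

lemma le_lorentz (L : ℕ) (hL : 2 ≤ L) (q : ℝ) (hq : 0 < q) (β : ℝ) (hβ : 0 ≤ β)
    (hβ2 : β ^ 2 * 2 ^ L = 8) (b : ℕ → 𝕜)
    (hb : ∀ i ∈ B L, Even (val i) → β * ta i ≤ ‖b i‖) :
    ENNReal.ofReal (s (L - 2)) ^ (1 / q) ≤ lorentz q b := by
  unfold lorentz
  apply ENNReal.rpow_le_rpow _ (by positivity)
  rw [ofReal_s]
  refine le_trans ?_ (ENNReal.sum_le_tsum (Finset.range (2 ^ (L - 2))))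
  refine Finset.sum_le_sum fun n hn => ?_
  rw [← term_eq q n]
  gcongr
  exact le_rearr L hL β hβ hβ2 b hb n (Finset.mem_range.1 hn)

end lorentz

/-! ### The main result -/

section main

/-- The kernel of the basis. -/
noncomputable def Kx (m n : ℕ) : ℝ :=
  if Even (val m) ∧ Odd (val n) then
    kk m n else 0

/-- The kernel of the dual basis. -/
noncomputable def Ky (m n : ℕ) : ℝ := - Kx n m

lemma ker_x : Ker Kx where
  le m n := by
    unfold Kx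
    split_ifs
    · rw [abs_of_nonneg (kk_nonneg m n)]
    · rw [abs_zero]; exact kk_nonneg m n
  sq m n j := by
    unfold Kx
    split_ifs with h1 h2
    · exact absurd h1.2 (Nat.not_odd_iff_even.2 h2.1)
    · simp
    · simp
    · simp

lemma ker_y : Ker Ky where
  le m n := by
    unfold Ky
    rw [abs_neg, kk_symm]
    exact ker_x.le n m
  sq m n j := by
    unfold Ky
    rw [neg_mul_neg, mul_comm]
    exact ker_x.sq j n m

lemma ky_eq (m n : ℕ) : Ky m n = - Kx n m := rfl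

variable {𝕜 : Type} [RCLike 𝕜]

lemma isBasis : IsBasis (Z Kx : ℕ → Ell2 𝕜) (Z Ky) where
  dense_span := dense_span_Z ker_x
  biorth := biorth_Z ker_x ky_eq
  separates := eq_zero_of_inner_Z ker_y
  bounded := ⟨10, fun n => ⟨norm_Z_le ker_x n, norm_Z_le ker_y n⟩⟩

lemma isBidemocratic : IsBidemocratic (Z Kx : ℕ → Ell2 𝕜) (Z Ky) := by
  refine ⟨100, by norm_num, fun m _ => ?_⟩
  refine (mul_le_mul' (phi_Z_le ker_x m) (phi_Z_le ker_y m)).trans ?_
  rw [← ENNReal.ofReal_mul (by positivity)]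
  have h1 : 10 * √(m : ℝ) * (10 * √(m : ℝ)) = 100 * m := by
    have := Real.mul_self_sqrt (Nat.cast_nonneg (α := ℝ) m)
    linear_combination 100 * this
  rw [h1, ENNReal.ofReal_mul (by norm_num)]
  simp

/-- A constant does not dominate a positive power of a sequence tending to infinity. -/
lemma no_const (t : ℕ → ℝ) (ht : Filter.Tendsto t Filter.atTop Filter.atTop)
    (C : ℝ≥0∞) (hC : C ≠ ∞) (p : ℝ) (hp : 0 < p)
    (h : ∀ l, 1 ≤ l → ENNReal.ofReal (t l) ^ p ≤ C) : False := by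
  obtain ⟨M, hM⟩ := (ht.eventually_gt_atTop ((C ^ (1 / p)).toReal)).exists_forall_of_atTop
  have h1 := h (M + 1) (by omega)
  have h2 := hM (M + 1) (by omega)
  have h3 : C ^ (1 / p) < ENNReal.ofReal (t (M + 1)) := by
    rw [← ENNReal.toReal_lt_toReal (by simp [hC, hp.le]) ENNReal.ofReal_ne_top,
      ENNReal.toReal_ofReal (le_trans ENNReal.toReal_nonneg h2.le)]
    exact h2
  have h4 : C < ENNReal.ofReal (t (M + 1)) ^ p := by
    have := ENNReal.rpow_lt_rpow h3 hp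
    rw [← ENNReal.rpow_mul, one_div_mul_cancel hp.ne', ENNReal.rpow_one] at this
    exact this
  exact absurd h1 (not_le.2 h4)

/-- The test vector. -/
noncomputable def tv (𝕜 : Type) [RCLike 𝕜] (L : ℕ) (β : ℝ) (n : ℕ) : 𝕜 :=
  if n ∈ B L ∧ Odd (val n) then ((β * ta n : ℝ) : 𝕜) else 0

lemma sum_tv (l m : ℕ) (β : ℝ) :
    ∑ n ∈ B (2 * l + 1), ((kk m n : ℝ) : 𝕜) * tv 𝕜 (2 * l + 1) β n =
      ((β * ∑ n ∈ (B (2 * l + 1)).filter (fun n => Odd (val n)),
        kk m n * ta n : ℝ) : 𝕜) := by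
  rw [Finset.mul_sum, Finset.sum_filter, RCLike.ofReal_sum]
  refine Finset.sum_congr rfl fun n hn => ?_
  unfold tv
  by_cases h : Odd (val n)
  · rw [if_pos ⟨hn, h⟩, if_pos h]
    push_cast
    ring
  · rw [if_neg (fun h2 => h h2.2), if_neg h]
    simp

lemma low_tv (l m : ℕ) (β : ℝ) (hβ : 0 ≤ β) (hm : m ∈ B (2 * l + 1)) :
    β * ((√(2 * (l : ℝ) + 2))⁻¹ * (((l : ℝ) + 1) * ta m)) ≤
      ‖∑ n ∈ B (2 * l + 1), ((kk m n : ℝ) : 𝕜) * tv 𝕜 (2 * l + 1) β n‖ := by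
  rw [sum_tv l m β, RCLike.norm_ofReal]
  refine le_trans ?_ (le_abs_self _)
  exact mul_le_mul_of_nonneg_left (kk_low l m (mem_B.1 hm)) hβ

lemma not_embedsInto (q : ℝ) (hq : 1 < q) : ¬ EmbedsInto (Z Kx : ℕ → Ell2 𝕜) q := by
  rintro ⟨C, hC, h⟩
  have hq0 : 0 < q := by linarith
  have ht : Filter.Tendsto (fun l : ℕ => 2 * (l : ℝ) + 2) Filter.atTop Filter.atTop :=
    Filter.tendsto_atTop_add_const_right _ _
      (Filter.Tendsto.const_mul_atTop (by norm_num) tendsto_natCast_atTop_atTop)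
  refine no_const (fun l : ℕ => 2 * (l : ℝ) + 2) ht (6 * C) (ENNReal.mul_ne_top (by norm_num) hC)
    (1 - 1 / q) ?_ ?_
  · rw [sub_pos, div_lt_one hq0]; exact hq
  intro l _
  set L := 2 * l + 1 with hL
  set β : ℝ := (√(2 ^ (L + 1)))⁻¹ with hβdef
  have hβ : 0 ≤ β := by positivity
  have hβ2 : β ^ 2 * 2 ^ (L + 1) = 1 := by
    rw [hβdef, inv_pow, Real.sq_sqrt (by positivity)]
    exact inv_mul_cancel₀ (by positivity)
  have hsupp : ∀ n, tv 𝕜 L β n ≠ 0 → n ∈ B L := by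
    intro n hn
    unfold tv at hn
    by_contra hcon
    exact hn (if_neg fun h2 => hcon h2.1)
  have h1 := h (Finsupp.onFinset (B L) (tv 𝕜 L β) hsupp)
  rw [Finsupp.onFinset_sum (g := fun n c => c • (Z Kx n : Ell2 𝕜)) _ (fun n => zero_smul _ _)] at h1
  set F : Ell2 𝕜 := ∑ n ∈ B L, tv 𝕜 L β n • (Z Kx n : Ell2 𝕜) with hF
  -- coordinates of `F`
  have h2 : ∀ m ∈ (B L).filter (fun m => Even (val m)),
      β ^ 2 * (2 * (l : ℝ) + 2)⁻¹ * ((l : ℝ) + 1) ^ 2 * ta m ^ 2 ≤ ‖F m‖ ^ 2 := by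
    intro m hm
    rw [Finset.mem_filter] at hm
    have h3 : F m = ∑ n ∈ B L, ((kk m n : ℝ) : 𝕜) * tv 𝕜 L β n := by
      rw [hF, lp.coeFn_sum, Finset.sum_apply]
      refine Finset.sum_congr rfl fun n _ => ?_
      rw [lp.coeFn_smul, Pi.smul_apply, Z_apply ker_x, smul_eq_mul]
      by_cases hn : Odd (val n)
      · have hmn : m ≠ n := by
          rintro rfl
          exact absurd hn (Nat.not_odd_iff_even.2 hm.2)
        unfold Kx
        rw [if_neg hmn, if_pos ⟨hm.2, hn⟩]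
        ring
      · have : tv 𝕜 L β n = 0 := if_neg fun h2 => hn h2.2
        rw [this]
        simp
    have h4 := low_tv (𝕜 := 𝕜) l m β hβ hm.1
    rw [← hL, ← h3] at h4
    have h5 := pow_le_pow_left₀ (by have := ta_pos m; positivity) h4 2
    have e2 : ((√(2 * (l : ℝ) + 2))⁻¹) ^ 2 = (2 * (l : ℝ) + 2)⁻¹ := by
      rw [inv_pow, Real.sq_sqrt (by positivity)]
    refine le_trans (le_of_eq ?_) h5
    rw [← e2]
    ring
  have h6 := Finset.sum_le_sum h2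
  rw [← Finset.mul_sum] at h6
  have h7 := sum_ta_even l
  have h8 := h6.trans (coord_le_norm F _)
  rw [← hL] at h7
  have h9 : ((l : ℝ) + 1) ^ 2 / 8 ≤ ‖F‖ ^ 2 := by
    refine le_trans ?_ h8
    have h10 : β ^ 2 * 2 ^ L = 1 / 2 := by
      have e3 : (2 : ℝ) ^ (L + 1) = 2 ^ L * 2 := pow_succ _ _
      rw [e3] at hβ2
      linarith
    set T := ∑ m ∈ (B L).filter (fun m => Even (val m)), ta m ^ 2
    have h11 : 2 ^ L * ((l : ℝ) + 1) / 2 ≤ T := by linarith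
    have hl : (0 : ℝ) < (l : ℝ) + 1 := by positivity
    calc ((l : ℝ) + 1) ^ 2 / 8
        = (β ^ 2 * 2 ^ L) * (2 * (l : ℝ) + 2)⁻¹ * ((l : ℝ) + 1) ^ 2 * (((l : ℝ) + 1) / 2) := by
          rw [h10]
          field_simp
          ring
      _ = β ^ 2 * (2 * (l : ℝ) + 2)⁻¹ * ((l : ℝ) + 1) ^ 2 * (2 ^ L * ((l : ℝ) + 1) / 2) := by
          ring
      _ ≤ _ := by gcongr
  have h12 : (2 * (l : ℝ) + 2) / 6 ≤ ‖F‖ := by
    have hl : (0 : ℝ) < (l : ℝ) + 1 := by positivity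
    apply le_of_sq_le_sq _ (norm_nonneg _)
    nlinarith
  have h13 := lorentz_le (𝕜 := 𝕜) L q hq0 β hβ2 (tv 𝕜 L β)
    (fun i hi => by
      unfold tv
      have := ta_pos i
      split_ifs
      · rw [RCLike.norm_ofReal, abs_of_nonneg (by positivity)]
      · rw [norm_zero]; positivity)
    (fun i hi => by
      by_contra hcon
      exact hi (hsupp i hcon))
  have h14 : s L ≤ 2 * (l : ℝ) + 2 := by
    have := s_le L
    rw [hL] at this ⊢
    push_cast at this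
    linarith
  have h15 : ENNReal.ofReal (2 * (l : ℝ) + 2) ≤
      6 * C * ENNReal.ofReal (2 * (l : ℝ) + 2) ^ (1 / q) := by
    have e1 : ENNReal.ofReal (2 * (l : ℝ) + 2) = 6 * ENNReal.ofReal ((2 * (l : ℝ) + 2) / 6) := by
      rw [show (6 : ℝ≥0∞) = ENNReal.ofReal 6 by simp, ← ENNReal.ofReal_mul (by norm_num)]
      congr 1
      ring
    have e2 : ENNReal.ofReal ((2 * (l : ℝ) + 2) / 6) ≤
        C * ENNReal.ofReal (2 * (l : ℝ) + 2) ^ (1 / q) := by
      refine le_trans (ENNReal.ofReal_le_ofReal h12) ?_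
      rw [ofReal_norm]
      refine h1.trans ?_
      gcongr
      refine h13.trans ?_
      gcongr
    calc ENNReal.ofReal (2 * (l : ℝ) + 2) = 6 * ENNReal.ofReal ((2 * (l : ℝ) + 2) / 6) := e1
      _ ≤ 6 * (C * ENNReal.ofReal (2 * (l : ℝ) + 2) ^ (1 / q)) := mul_le_mul' le_rfl e2
      _ = _ := (mul_assoc _ _ _).symm
  have hs : ENNReal.ofReal (2 * (l : ℝ) + 2) ≠ 0 := by
    rw [Ne, ENNReal.ofReal_eq_zero, not_le]
    positivity
  rw [ENNReal.rpow_sub _ _ hs ENNReal.ofReal_ne_top, ENNReal.rpow_one]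
  apply ENNReal.div_le_of_le_mul
  exact h15

lemma not_embedsOut (r : ℝ) (hr : 0 < r) : ¬ EmbedsOut (Z Ky : ℕ → Ell2 𝕜) r := by
  rintro ⟨C, hC, h⟩
  have ht : Filter.Tendsto (fun l : ℕ => s (2 * l - 1)) Filter.atTop Filter.atTop := by
    apply s_tendsto.comp
    apply Filter.tendsto_atTop_mono (f := fun l : ℕ => l - 1) (fun l => by omega)
    exact Filter.tendsto_sub_atTop_nat 1
  refine no_const (fun l : ℕ => s (2 * l - 1)) ht (C * 6) (ENNReal.mul_ne_top hC (by norm_num))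
    (1 / r) (by positivity) ?_
  intro l hl1
  set L := 2 * l + 1 with hL
  set γ : ℝ := 4 * (√(((l : ℝ) + 1) * 2 ^ L))⁻¹ with hγdef
  have hγ : 0 ≤ γ := by positivity
  have hγ2 : γ ^ 2 * (((l : ℝ) + 1) * 2 ^ L) = 16 := by
    rw [hγdef, mul_pow, inv_pow, Real.sq_sqrt (by positivity), mul_assoc,
      inv_mul_cancel₀ (by positivity)]
    norm_num
  set f : Ell2 𝕜 := ∑ n ∈ B L, tv 𝕜 L γ n • e n with hf
  have hfm : ∀ m, f m = tv 𝕜 L γ m := by
    intro m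
    rw [hf, lp.coeFn_sum, Finset.sum_apply]
    have : ∀ n ∈ B L, (tv 𝕜 L γ n • (e n : Ell2 𝕜) : Ell2 𝕜) m =
        if m = n then tv 𝕜 L γ n else 0 := by
      intro n _
      rw [lp.coeFn_smul, Pi.smul_apply, e_apply, smul_eq_mul, mul_ite, mul_one, mul_zero]
    rw [Finset.sum_congr rfl this, Finset.sum_ite_eq]
    split_ifs with h1
    · rfl
    · unfold tv
      rw [if_neg fun h2 => h1 h2.1]
  have hnorm : ‖f‖ ≤ 6 := by
    apply norm_le_of_coord _ _ (by norm_num)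
    intro M
    have h1 : ∀ m ∈ M, ‖f m‖ ^ 2 =
        if m ∈ (B L).filter (fun n => Odd (val n)) then
          γ ^ 2 * ta m ^ 2 else 0 := by
      intro m _
      rw [hfm]
      unfold tv
      simp only [Finset.mem_filter]
      split_ifs
      · rw [RCLike.norm_ofReal, sq_abs, mul_pow]
      · simp
    rw [Finset.sum_congr rfl h1, ← Finset.sum_filter, ← Finset.mul_sum]
    have h2 : ∑ m ∈ M.filter (fun m => m ∈ (B L).filter
        (fun n => Odd (val n))), ta m ^ 2 ≤ 2 ^ L * ((L : ℝ) + 1) := by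
      refine le_trans ?_ (sum_ta_le L (fun n => Odd (val n)))
      apply Finset.sum_le_sum_of_subset_of_nonneg
      · intro m hm
        exact (Finset.mem_filter.1 hm).2
      · intro m _ _
        exact sq_nonneg _
    have h3 : ((L : ℕ) : ℝ) + 1 = 2 * ((l : ℝ) + 1) := by
      rw [hL]; push_cast; ring
    rw [h3] at h2
    have h4 := mul_le_mul_of_nonneg_left h2 (sq_nonneg γ)
    refine h4.trans ?_
    have : γ ^ 2 * (2 ^ L * (2 * ((l : ℝ) + 1))) = 32 := by linarith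
    rw [this]
    norm_num
  have h1 := h f
  have h2 : lorentz r (fun n => ⟪(Z Ky n : Ell2 𝕜), f⟫_𝕜) ≤ C * 6 := by
    refine h1.trans ?_
    gcongr
    rw [← ofReal_norm]
    refine (ENNReal.ofReal_le_ofReal hnorm).trans ?_
    simp
  refine le_trans ?_ h2
  -- the lower bound of the Lorentz norm
  set β : ℝ := γ * ((√(2 * (l : ℝ) + 2))⁻¹ * ((l : ℝ) + 1)) with hβdef
  have hβ : 0 ≤ β := by positivity
  have hβ2 : β ^ 2 * 2 ^ L = 8 := by
    have hl : (0 : ℝ) < (l : ℝ) + 1 := by positivity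
    have e2 : ((√(2 * (l : ℝ) + 2))⁻¹) ^ 2 = (2 * ((l : ℝ) + 1))⁻¹ := by
      rw [inv_pow, Real.sq_sqrt (by positivity)]
      congr 1
      ring
    have e1 : β ^ 2 = γ ^ 2 * ((l : ℝ) + 1) / 2 := by
      have e3 : β ^ 2 = γ ^ 2 * ((√(2 * (l : ℝ) + 2))⁻¹) ^ 2 * ((l : ℝ) + 1) ^ 2 := by
        rw [hβdef]
        ring
      rw [e3, e2]
      field_simp
    rw [e1]
    linarith
  have h3 := le_lorentz (𝕜 := 𝕜) L (by omega) r hr β hβ hβ2
    (fun n => ⟪(Z Ky n : Ell2 𝕜), f⟫_𝕜)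
    (fun m hm hev => by
      have h4 := low_tv (𝕜 := 𝕜) l m γ hγ hm
      rw [← hL] at h4
      have h5 : ⟪(Z Ky m : Ell2 𝕜), f⟫_𝕜 = - ∑ n ∈ B L, ((kk m n : ℝ) : 𝕜) * tv 𝕜 L γ n := by
        have hbm := mem_B.1 hm
        rw [inner_Z, hfm, hbm]
        have e1 : tv 𝕜 L γ m = 0 := if_neg fun h2 => absurd h2.2 (Nat.not_odd_iff_even.2 hev)
        rw [e1, zero_add, ← Finset.sum_neg_distrib]
        refine Finset.sum_congr rfl fun n _ => ?_
        rw [hfm]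
        by_cases hn : Odd (val n)
        · unfold Ky Kx
          rw [if_pos ⟨hev, hn⟩]
          push_cast
          ring
        · have : tv 𝕜 L γ n = 0 := if_neg fun h2 => hn h2.2
          rw [this]
          simp
      rw [h5, norm_neg]
      refine le_trans (le_of_eq ?_) h4
      rw [hβdef]
      ring)
  have h6 : L - 2 = 2 * l - 1 := by omega
  rw [h6] at h3
  exact h3

end main

/-- There is a bidemocratic Schauder basis `(x_n)` of `ℓ₂` (real or complex scalars) such that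
`ℓ_{2,q} ↪ ℓ₂` through the basis fails for every `q > 1` and `ℓ₂ ↪ ℓ_{2,r}` through the basis fails
for every `0 < r < ∞`. In particular no pair `1 < q < r < ∞` has both embeddings (or even one of
them). -/
theorem result (𝕜 : Type) [RCLike 𝕜] :
    ∃ x y : ℕ → Ell2 𝕜, IsBasis x y ∧ IsSchauder x y ∧ IsBidemocratic x y ∧
      (∀ q : ℝ, 1 < q → ¬ EmbedsInto x q) ∧ (∀ r : ℝ, 0 < r → ¬ EmbedsOut y r) :=
  ⟨Z Kx, Z Ky, isBasis, schauder_Z ker_x ky_eq, isBidemocratic, not_embedsInto, not_embedsOut⟩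

end Pool.Agent.Results.MP_c77635_an.SchauderNoLorentzSqueeze
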